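import Pool.Agent.PV3.Stmts
import Pool.Agent.Helper64_BM.Main

/-!
Squad PV3, module BM: the Brunn-Minkowski inequality.
-/

set_option autoImplicit false

open MeasureTheory Metric Set Filter Topology Pointwise

namespace PV3.H64

theorem bm : BMStmt := by
  intro n _ A B hA hB hA0 hB0 a b ha hb hμA hμB
  exact BM64.bm_pow_euclidean hA hB hA0 hB0 ha hb hμA hμB

end PV3.H64
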